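import Pool.Agent.helper61.CSW.W.SpecW

/-!
# csw:IVS : the auxiliary points are invisible
-/

set_option autoImplicit false

open Complex Metric Set Filter Topology MeasureTheory
open YPPS (fd fdd pre TT CV IsCyc rho Exact)
open MPS (BB)
open Pool.Agent.helper98.ILF (juliaSet fatouSet)

noncomputable section

open CSS (SE SV JJ)

namespace YW

theorem IVS_it {k : ℕ} [NeZero k] (f : SE) (b : ZMod k → ℂ) (hb : ∀ i, f.eval (b i) = b (i + 1)) (i : ZMod k) (m : ℕ) :
    (fun w : ℂ => f.eval w)^[m] (b i) = b (i + (m : ZMod k)) := by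
  induction m with
  | zero => simp
  | succ m ih =>
    rw [Function.iterate_succ_apply', ih]
    show f.eval (b (i + (m : ZMod k))) = _
    rw [hb]
    congr 1
    push_cast
    ring

theorem IVS_der (f : SE) (z : ℂ) (m : ℕ) :
    HasDerivAt ((fun w : ℂ => f.eval w)^[m]) (∏ j ∈ Finset.range m, fd f ((fun w : ℂ => f.eval w)^[j] z)) z := by
  induction m with
  | zero => simpa using hasDerivAt_id z
  | succ m ih =>
    rw [Function.iterate_succ', Finset.prod_range_succ, mul_comm]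
    exact HasDerivAt.comp z (f.hasDerivAt _) ih

theorem IVS_rho {k : ℕ} [NeZero k] (f : SE) (b : ZMod k → ℂ) (hb : ∀ i, f.eval (b i) = b (i + 1)) (i : ZMod k) :
    mlt f k (b i) = rho f b := by
  unfold mlt
  rw [(IVS_der f (b i) k).deriv]
  have h1 : rho f b = ∏ l : ZMod k, fd f (b (i + l)) := by
    show ∏ l : ZMod k, fd f (b l) = _
    exact (Fintype.prod_equiv (Equiv.addLeft i) _ _ (fun l => rfl)).symm
  rw [h1]
  symm
  refine Finset.prod_nbij' (fun l : ZMod k => l.val) (fun j : ℕ => (j : ZMod k)) ?_ ?_ ?_ ?_ ?_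
  · intro l _
    exact Finset.mem_range.2 (ZMod.val_lt l)
  · intro j _
    exact Finset.mem_univ _
  · intro l _
    exact ZMod.natCast_zmod_val l
  · intro j hj
    exact ZMod.val_cast_of_lt (Finset.mem_range.1 hj)
  · intro l _
    rw [IVS_it f b hb i l.val, ZMod.natCast_zmod_val]

theorem IVS_per {k : ℕ} [NeZero k] (f : SE) (b : ZMod k → ℂ) (hc : IsCyc f b) (i : ZMod k) :
    (fun w : ℂ => f.eval w)^[k] (b i) = b i ∧ Function.minimalPeriod (fun w : ℂ => f.eval w) (b i) = k := by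
  have hk : 0 < k := Nat.pos_of_ne_zero (NeZero.ne k)
  have h1 : (fun w : ℂ => f.eval w)^[k] (b i) = b i := by
    rw [IVS_it f b hc.step i k]
    simp
  refine ⟨h1, ?_⟩
  have hper : Function.IsPeriodicPt (fun w : ℂ => f.eval w) k (b i) := h1
  have hdvd := hper.minimalPeriod_dvd
  have hpos := hper.minimalPeriod_pos hk
  set p := Function.minimalPeriod (fun w : ℂ => f.eval w) (b i) with hp
  have h2 : (fun w : ℂ => f.eval w)^[p] (b i) = b i := Function.isPeriodicPt_minimalPeriod _ _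
  rw [IVS_it f b hc.step i p] at h2
  have h3 := hc.inj h2
  have h4 : (p : ZMod k) = 0 := by
    have : i + (p : ZMod k) = i + 0 := by rw [h3, add_zero]
    exact add_left_cancel this
  have h5 : k ∣ p := (ZMod.natCast_eq_zero_iff p k).1 h4
  exact Nat.dvd_antisymm hdvd h5

theorem IVS (hPOS : POS_stmt) (hSMS : SMS_stmt) (hIVR : IVR_stmt) : IVS_stmt := by
  intro f X ε ε' hε hε'
  obtain ⟨R₀, hR₀⟩ := hPOS f ε hε
  have hrep : ∀ p : ℂ, f.eval p = p → 1 < ‖fd f p‖ → Rep f 1 p := by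
    intro p hp h1
    refine ⟨⟨one_pos, ?_⟩, ?_⟩
    · rw [Function.minimalPeriod_eq_one_iff_isFixedPt]
      exact hp
    · unfold mlt
      rw [(IVS_der f p 1).deriv]
      simpa using h1
  obtain ⟨t₁, ht₁, h1⟩ := hIVR f 1 X.p₁ (2 / ε) (hrep _ X.fix1 X.rep1) (by positivity)
  obtain ⟨t₂, ht₂, h2⟩ := hIVR f 1 X.p₂ (2 / ε) (hrep _ X.fix2 X.rep2) (by positivity)
  obtain ⟨t, ht⟩ : ∃ t : ℝ, t = min ε' (min t₁ t₂) := ⟨_, rfl⟩
  have ht0 : 0 < t := by rw [ht]; exact lt_min hε' (lt_min ht₁ ht₂)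
  have hte : t ≤ ε' := by rw [ht]; exact min_le_left _ _
  have htt1 : t ≤ t₁ := by rw [ht]; exact (min_le_right _ _).trans (min_le_left _ _)
  have htt2 : t ≤ t₂ := by rw [ht]; exact (min_le_right _ _).trans (min_le_right _ _)
  obtain ⟨K₀, hK₀⟩ := (hSMS f (t / 2) R₀ (by positivity)).2 (4 * t + 1)
  refine ⟨max K₀ 2, ?_⟩
  intro k _ b hk hc hρ1 hρ2 hb1 hb2 i R hR hd hx
  have hk1 : 1 ≤ k := le_trans (by norm_num) ((le_max_right K₀ 2).trans hk)
  obtain ⟨hper, hmin⟩ := IVS_per f b hc i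
  have hm := IVS_rho f b hc.step i
  have hRep : Rep f k (b i) := ⟨⟨hk1, hmin⟩, by rw [hm]; exact hρ1⟩
  have hbR : ‖b i‖ ≤ R₀ := hR₀ k (b i) hk1 hper (by rw [hm]; exact hρ2) hd
  have h4 : ∀ x : ℂ, ‖x‖ < R → ‖it f k (b i + x) - b i‖ ≤ 4 * ‖x‖ := by
    intro x hxR
    have h5 := hx x (by rw [mem_ball_zero_iff]; exact hxR)
    calc ‖it f k (b i + x) - b i‖ = ‖(it f k (b i + x) - b i - x) + x‖ := by rw [sub_add_cancel]
      _ ≤ ‖it f k (b i + x) - b i - x‖ + ‖x‖ := norm_add_le _ _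
      _ ≤ 4 * ‖x‖ := by linarith
  have hRt : R < t / 2 := by
    by_contra hcon
    rw [not_lt] at hcon
    have h6 : 4 * t + 1 ≤ 4 * t := by
      refine hK₀ k k (b i) (b i) (4 * t) ((le_max_left K₀ 2).trans hk) hRep hbR ?_
      intro z hz
      have h7 := h4 (z - b i) (lt_of_lt_of_le hz hcon)
      rw [add_sub_cancel] at h7
      linarith
    linarith
  have hbound : ∀ x : ℂ, ‖x‖ < R → ‖it f k (b i + x) - b i‖ ≤ 4 * R := fun x hxR => (h4 x hxR).trans (by linarith)
  refine ⟨by linarith, ?_, ?_⟩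
  · have h8 := h1 k k (b i) R hRep (hb1 i) hk1 hper hR (by linarith) hbound
    have h9 : 2 * R / ε = 2 / ε * R := by ring
    rw [h9]
    exact h8
  · have h8 := h2 k k (b i) R hRep (hb2 i) hk1 hper hR (by linarith) hbound
    have h9 : 2 * R / ε = 2 / ε * R := by ring
    rw [h9]
    exact h8

end YW
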